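import Mathlib
import Pool.Agent.H564R2.QF.Defs

/-! Polynomials bounded on the cube: a bound for the number of disjoint sensitive blocks.
The derivative argument follows `Pool.Agent.H630R2.LR.MARKOV`. -/

set_option autoImplicit false

namespace Pool.Agent.H529R2.PT

open Finset Polynomial Pool.Agent.H564R2.QF

/-- indicator of a set -/
def ind {b : ℕ} (Y : Finset (Fin b)) : Fin b → Bool := fun j => decide (j ∈ Y)

/-- the expectation of `G` at a point with independent coordinates of bias `X` -/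
noncomputable def QP {b : ℕ} (G : (Fin b → Bool) → ℝ) : ℝ[X] :=
  ∑ Y : Finset (Fin b), C (G (ind Y)) * (X ^ Y.card * (1 - X) ^ (b - Y.card))

lemma chi_ind {b : ℕ} (S Y : Finset (Fin b)) :
    chi S (ind Y) = ∏ i ∈ Y, (if i ∈ S then (-1 : ℝ) else 1) := by
  unfold chi ind
  have h1 : ∀ v ∈ S, (if decide (v ∈ Y) = true then (-1 : ℝ) else 1) =
      if v ∈ Y then (-1 : ℝ) else 1 := by
    intro v _
    simp
  rw [Finset.prod_congr rfl h1, Finset.prod_ite_mem, Finset.prod_ite_mem, inter_comm]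

lemma QP_chi {b : ℕ} (S : Finset (Fin b)) : QP (chi S) = (1 - C 2 * X) ^ S.card := by
  classical
  have h := Finset.prod_add (fun i : Fin b => if i ∈ S then -X else (X : ℝ[X]))
    (fun _ => 1 - X) (univ : Finset (Fin b))
  have e1 : ∏ i : Fin b, ((if i ∈ S then -X else (X : ℝ[X])) + (1 - X)) =
      (1 - C 2 * X) ^ S.card := by
    have : ∀ i : Fin b, ((if i ∈ S then -X else (X : ℝ[X])) + (1 - X)) =
        if i ∈ S then 1 - C 2 * X else 1 := by
      intro i
      split_ifs
      · have h2 : (C 2 : ℝ[X]) = 2 := map_ofNat C 2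
        rw [h2]
        ring
      · ring
    rw [Finset.prod_congr rfl (fun i _ => this i), Finset.prod_ite_mem, univ_inter, prod_const]
  rw [← e1, h, QP, Finset.powerset_univ]
  refine Finset.sum_congr rfl fun Y _ => ?_
  rw [prod_const, card_sdiff_of_subset (subset_univ Y), card_univ, Fintype.card_fin]
  have e2 : ∏ i ∈ Y, (if i ∈ S then -X else (X : ℝ[X])) = C (chi S (ind Y)) * X ^ Y.card := by
    have : ∀ i ∈ Y, (if i ∈ S then -X else (X : ℝ[X])) =
        C (if i ∈ S then (-1 : ℝ) else 1) * X := by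
      intro i _
      split_ifs
      · simp
      · simp
    rw [Finset.prod_congr rfl this, Finset.prod_mul_distrib, prod_const, chi_ind, map_prod]
  rw [e2]
  ring

lemma QP_natDegree {b d : ℕ} (G : (Fin b → Bool) → ℝ) (hG : G ∈ LowDeg (Fin b) d) :
    (QP G).natDegree ≤ d := by
  unfold LowDeg at hG
  induction hG using Submodule.span_induction with
  | mem g hg =>
    obtain ⟨S, hS, rfl⟩ := hg
    rw [QP_chi]
    refine natDegree_pow_le.trans ?_
    have h3 : (1 - C 2 * X : ℝ[X]).natDegree ≤ 1 := by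
      refine (natDegree_sub_le _ _).trans ?_
      rw [max_le_iff]
      refine ⟨by simp, (natDegree_C_mul_le _ _).trans natDegree_X_le⟩
    calc S.card * (1 - C 2 * X : ℝ[X]).natDegree ≤ S.card * 1 := Nat.mul_le_mul_left _ h3
      _ ≤ d := by omega
  | zero =>
    have : QP (0 : (Fin b → Bool) → ℝ) = 0 := by simp [QP]
    rw [this]
    simp
  | add f g _ _ hf hg =>
    have : QP (f + g) = QP f + QP g := by
      unfold QP
      rw [← Finset.sum_add_distrib]
      refine Finset.sum_congr rfl fun Y _ => ?_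
      rw [Pi.add_apply, C_add]
      ring
    rw [this]
    exact (natDegree_add_le _ _).trans (max_le hf hg)
  | smul c f _ hf =>
    have : QP (c • f) = C c * QP f := by
      unfold QP
      rw [Finset.mul_sum]
      refine Finset.sum_congr rfl fun Y _ => ?_
      rw [Pi.smul_apply, smul_eq_mul, C_mul]
      ring
    rw [this]
    exact (natDegree_C_mul_le _ _).trans hf

lemma QP_eval {b : ℕ} (G : (Fin b → Bool) → ℝ) (θ : ℝ) : (QP G).eval θ =
    ∑ Y : Finset (Fin b), G (ind Y) * (θ ^ Y.card * (1 - θ) ^ (b - Y.card)) := by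
  rw [QP, eval_finsetSum]
  refine Finset.sum_congr rfl (fun Y _ => ?_)
  simp

lemma QP_one {b : ℕ} : QP (fun _ : Fin b → Bool => (1 : ℝ)) = 1 := by
  have h := QP_chi (∅ : Finset (Fin b))
  have e : chi (∅ : Finset (Fin b)) = fun _ => (1 : ℝ) := by
    funext u
    simp [chi]
  rw [e] at h
  simpa using h

lemma abs_deriv_le {k : ℕ} {P : ℝ[X]} (hdeg : P.degree ≤ k)
    (hb : ∀ x ∈ Set.Icc (-1 : ℝ) 1, |P.eval x| ≤ 1) : (derivative P).eval 1 ≤ (k : ℝ) ^ 2 := by
  have h := Polynomial.Chebyshev.eval_iterate_derivative_le_of_forall_abs_le_one (n := k) (k := 1)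
    (le_refl (1 : ℝ)) hdeg hb
  simp only [Function.iterate_one] at h
  refine h.trans (le_of_eq ?_)
  rw [Polynomial.Chebyshev.T_derivative_eq_U]
  simp
  ring

lemma der_le {k : ℕ} {Q : ℝ[X]} (h1 : Q.natDegree ≤ k)
    (hQ0 : ∀ θ : ℝ, 0 ≤ θ → θ ≤ 1 → 0 ≤ Q.eval θ ∧ Q.eval θ ≤ 1) :
    (derivative Q).eval 0 ≤ (k : ℝ) ^ 2 := by
  set P : ℝ[X] := 1 - C 2 * Q.comp (C (1 / 2) - C (1 / 2) * X) with hP
  have hPdeg : P.degree ≤ k := by
    have h2 : (Q.comp (C (1 / 2) - C (1 / 2) * X)).natDegree ≤ k := by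
      refine natDegree_comp_le.trans ?_
      have h3 : (C (1 / 2 : ℝ) - C (1 / 2) * X : ℝ[X]).natDegree ≤ 1 := by
        refine (natDegree_sub_le _ _).trans ?_
        simp only [natDegree_C, max_le_iff, zero_le, true_and]
        exact (natDegree_C_mul_le _ _).trans natDegree_X_le
      calc Q.natDegree * (C (1 / 2 : ℝ) - C (1 / 2) * X : ℝ[X]).natDegree ≤ k * 1 :=
            Nat.mul_le_mul h1 h3
        _ = k := mul_one k
    rw [← natDegree_le_iff_degree_le, hP]
    refine (natDegree_sub_le _ _).trans ?_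
    rw [max_le_iff]
    refine ⟨by simp, (natDegree_C_mul_le _ _).trans h2⟩
  have hPeval : ∀ x, P.eval x = 1 - 2 * Q.eval (1 / 2 - 1 / 2 * x) := by
    intro x
    rw [hP]
    simp [eval_comp]
  have hPb : ∀ x ∈ Set.Icc (-1 : ℝ) 1, |P.eval x| ≤ 1 := by
    rintro x ⟨hx1, hx2⟩
    obtain ⟨q1, q2⟩ := hQ0 (1 / 2 - 1 / 2 * x) (by linarith) (by linarith)
    rw [hPeval, abs_le]
    constructor <;> linarith
  have hd := abs_deriv_le hPdeg hPb
  have hd2 : (derivative P).eval 1 = (derivative Q).eval 0 := by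
    rw [hP, derivative_sub, derivative_C_mul, derivative_comp]
    simp [eval_comp]
  rwa [hd2] at hd

lemma QP_der {b : ℕ} (G : (Fin b → Bool) → ℝ) : (derivative (QP G)).eval 0 =
    -(b : ℝ) * G (ind ∅) + ∑ j : Fin b, G (ind {j}) := by
  have hder : (derivative (QP G)).eval 0 = ∑ Y : Finset (Fin b),
      G (ind Y) * ((Y.card : ℝ) * 0 ^ (Y.card - 1) - 0 ^ Y.card * ((b - Y.card : ℕ) : ℝ)) := by
    rw [QP, derivative_sum, eval_finsetSum]
    refine Finset.sum_congr rfl (fun Y _ => ?_)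
    rw [derivative_C_mul, derivative_mul, derivative_X_pow, derivative_pow]
    simp
    ring_nf
    simp
  have hval : ∀ Y : Finset (Fin b), ((Y.card : ℝ) * 0 ^ (Y.card - 1) -
      0 ^ Y.card * ((b - Y.card : ℕ) : ℝ)) =
      (if Y = ∅ then -(b : ℝ) else 0) + (if Y.card = 1 then 1 else 0) := by
    intro Y
    rcases Nat.lt_trichotomy Y.card 1 with h | h | h
    · have h0 : Y.card = 0 := by omega
      have hY : Y = ∅ := card_eq_zero.mp h0
      rw [h0, if_pos hY]
      simp
    · have hY : Y ≠ ∅ := by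
        intro h1
        rw [h1] at h
        simp at h
      rw [if_neg hY, if_pos h, h]
      simp
    · have hY : Y ≠ ∅ := by
        intro h1
        rw [h1] at h
        simp at h
      rw [if_neg hY, if_neg (by omega), zero_pow (by omega), zero_pow (by omega)]
      simp
  rw [hder]
  simp_rw [hval, mul_add, Finset.sum_add_distrib]
  congr 1
  · rw [Finset.sum_eq_single ∅]
    · simp
      ring
    · intro Y _ hY
      rw [if_neg hY, mul_zero]
    · intro h
      exact absurd (mem_univ _) h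
  · simp_rw [mul_ite, mul_one, mul_zero]
    rw [← Finset.sum_filter]
    symm
    apply Finset.sum_bij (fun j _ => ({j} : Finset (Fin b)))
    · intro j _
      simp
    · intro i _ j _ h
      exact Finset.singleton_injective h
    · intro Y hY
      rw [mem_filter] at hY
      obtain ⟨j, hj⟩ := Finset.card_eq_one.mp hY.2
      exact ⟨j, mem_univ _, hj.symm⟩
    · intro j _
      rfl

theorem block_bound {b d : ℕ} (G : (Fin b → Bool) → ℝ) (hG : G ∈ LowDeg (Fin b) d)
    (h01 : ∀ u, 0 ≤ G u ∧ G u ≤ 1) (h0 : G (ind ∅) ≤ 1 / 3)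
    (h1 : ∀ j, 2 / 3 ≤ G (ind {j})) : b ≤ 3 * d ^ 2 := by
  have hw : ∀ (θ : ℝ), 0 ≤ θ → θ ≤ 1 → ∀ Y : Finset (Fin b),
      0 ≤ θ ^ Y.card * (1 - θ) ^ (b - Y.card) := by
    intro θ h0 h1 Y
    have : 0 ≤ 1 - θ := by linarith
    positivity
  have hQ : ∀ θ : ℝ, 0 ≤ θ → θ ≤ 1 → 0 ≤ (QP G).eval θ ∧ (QP G).eval θ ≤ 1 := by
    intro θ ht0 ht1
    rw [QP_eval]
    constructor
    · exact Finset.sum_nonneg (fun Y _ => mul_nonneg (h01 _).1 (hw θ ht0 ht1 Y))
    · have e := QP_eval (fun _ : Fin b → Bool => (1 : ℝ)) θ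
      rw [QP_one] at e
      simp only [eval_one, one_mul] at e
      refine le_trans ?_ (le_of_eq e.symm)
      refine Finset.sum_le_sum (fun Y _ => ?_)
      have := mul_le_mul_of_nonneg_right (h01 (ind Y)).2 (hw θ ht0 ht1 Y)
      rwa [one_mul] at this
  have h2 := der_le (QP_natDegree G hG) hQ
  rw [QP_der] at h2
  have h3 : (b : ℝ) * (2 / 3) ≤ ∑ j : Fin b, G (ind {j}) := by
    calc (b : ℝ) * (2 / 3) = ∑ _j : Fin b, (2 / 3 : ℝ) := by simp
      _ ≤ _ := Finset.sum_le_sum fun j _ => h1 j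
  have h4 : (b : ℝ) * G (ind ∅) ≤ (b : ℝ) * (1 / 3) :=
    mul_le_mul_of_nonneg_left h0 (Nat.cast_nonneg b)
  have h5 : (b : ℝ) ≤ 3 * (d : ℝ) ^ 2 := by linarith
  exact_mod_cast h5

end Pool.Agent.H529R2.PT
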