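import Mathlib

/-! Partial Boolean functions with few undefined inputs: combinatorial part. -/

set_option autoImplicit false

namespace Pool.Agent.H529R2.PT

open Finset

/-- Deterministic decision trees: a node asks for the value of a variable, the first subtree is
used for the answer `false`, the second for the answer `true`. -/
inductive DTree (V : Type)
  | leaf (b : Bool)
  | node (v : V) (t₀ t₁ : DTree V)

/-- The value computed by a decision tree on the input `x`. -/
def DTree.eval {V : Type} (x : V → Bool) : DTree V → Bool
  | .leaf b => b
  | .node v t₀ t₁ => if x v = true then t₁.eval x else t₀.eval x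

/-- The depth of a decision tree: the largest number of queries. -/
def DTree.depth {V : Type} : DTree V → ℕ
  | .leaf _ => 0
  | .node _ t₀ t₁ => 1 + max t₀.depth t₁.depth

/-- read all variables of a list -/
def readAll {V : Type} [DecidableEq V] (g : (V → Bool) → DTree V) :
    List V → (V → Bool) → DTree V
  | [], a => g a
  | v :: L, a => .node v (readAll g L (Function.update a v false))
      (readAll g L (Function.update a v true))

lemma readAll_depth {V : Type} [DecidableEq V] (g : (V → Bool) → DTree V) (D : ℕ)
    (hg : ∀ a, (g a).depth ≤ D) (L : List V) : ∀ a, (readAll g L a).depth ≤ L.length + D := by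
  induction L with
  | nil => intro a; simpa [readAll] using hg a
  | cons v L ih =>
    intro a
    have h0 := ih (Function.update a v false)
    have h1 := ih (Function.update a v true)
    simp only [readAll, DTree.depth, List.length_cons]
    omega

lemma readAll_eval {V : Type} [DecidableEq V] (g : (V → Bool) → DTree V) (x : V → Bool)
    (L : List V) : ∀ a, ∃ a', (∀ v ∈ L, a' v = x v) ∧ (∀ v, v ∉ L → a' v = a v) ∧
      (readAll g L a).eval x = (g a').eval x := by
  induction L with
  | nil => intro a; exact ⟨a, by simp, fun _ _ => rfl, rfl⟩
  | cons v L ih =>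
    intro a
    obtain ⟨a', h1, h2, h3⟩ := ih (Function.update a v (x v))
    refine ⟨a', ?_, ?_, ?_⟩
    · intro u hu
      rcases List.mem_cons.1 hu with h | h
      · subst h
        by_cases hL : u ∈ L
        · exact h1 u hL
        · rw [h2 u hL, Function.update_self]
      · exact h1 u h
    · intro u hu
      rw [List.mem_cons, not_or] at hu
      rw [h2 u hu.2, Function.update_of_ne hu.1]
    · rw [← h3]
      simp only [readAll, DTree.eval]
      cases hx : x v
      · simp
      · simp

/-- the algorithm which queries certificates -/
theorem tree_of_cert {V : Type} [DecidableEq V] (f : (V → Bool) → Option Bool) (c : ℕ)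
    (K : (V → Bool) → Finset V) (hK : ∀ x, (K x).card ≤ c)
    (hint : ∀ x z, f x = some true → f z = some false → ∃ v ∈ K x, v ∈ K z ∧ x v ≠ z v) :
    ∀ (m : ℕ) (Q : Finset V) (a : V → Bool),
      (∀ z, f z = some false → (∀ v ∈ Q, z v = a v) → (K z \ Q).card ≤ m) →
      ∃ t : DTree V, t.depth ≤ m * c ∧
        ∀ x b, f x = some b → (∀ v ∈ Q, x v = a v) → t.eval x = b := by
  classical
  intro m
  induction m with
  | zero =>
    intro Q a h
    by_cases hx : ∃ x, f x = some true ∧ ∀ v ∈ Q, x v = a v
    · obtain ⟨x, hx1, hx2⟩ := hx
      refine ⟨.leaf true, by simp [DTree.depth], fun z b hz hzQ => ?_⟩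
      cases b with
      | true => rfl
      | false =>
        exfalso
        obtain ⟨v, _, hv2, hv3⟩ := hint x z hx1 hz
        have h1 := h z hz hzQ
        have h2 : K z \ Q = ∅ := Finset.card_eq_zero.1 (by omega)
        rw [Finset.sdiff_eq_empty_iff_subset] at h2
        exact hv3 ((hx2 v (h2 hv2)).trans (hzQ v (h2 hv2)).symm)
    · refine ⟨.leaf false, by simp [DTree.depth], fun z b hz hzQ => ?_⟩
      cases b with
      | true => exact absurd ⟨z, hz, hzQ⟩ hx
      | false => rfl
  | succ m ih =>
    intro Q a h
    by_cases hx : ∃ x, f x = some true ∧ ∀ v ∈ Q, x v = a v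
    · obtain ⟨x, hx1, hx2⟩ := hx
      have key : ∀ a' : V → Bool, ∃ t : DTree V, t.depth ≤ m * c ∧
          ((∀ v ∈ Q, a' v = a v) → ∀ y b, f y = some b → (∀ v ∈ Q ∪ K x, y v = a' v) →
            t.eval y = b) := by
        intro a'
        by_cases ha : ∀ v ∈ Q, a' v = a v
        · obtain ⟨t, ht1, ht2⟩ := ih (Q ∪ K x) a' (by
            intro z hz hzQ
            have hzQ' : ∀ v ∈ Q, z v = a v := fun v hv =>
              (hzQ v (Finset.mem_union_left _ hv)).trans (ha v hv)
            have h1 := h z hz hzQ'
            obtain ⟨v, hv1, hv2, hv3⟩ := hint x z hx1 hz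
            have hvQ : v ∉ Q := fun hv => hv3 ((hx2 v hv).trans (hzQ' v hv).symm)
            have h2 : K z \ (Q ∪ K x) ⊆ (K z \ Q).erase v := by
              intro u hu
              rw [mem_sdiff, mem_union, not_or] at hu
              rw [mem_erase, mem_sdiff]
              refine ⟨?_, hu.1, hu.2.1⟩
              rintro rfl
              exact hu.2.2 hv1
            have h3 := Finset.card_le_card h2
            rw [Finset.card_erase_of_mem (mem_sdiff.2 ⟨hv2, hvQ⟩)] at h3
            omega)
          exact ⟨t, ht1, fun _ => ht2⟩
        · exact ⟨.leaf false, by simp [DTree.depth], fun h' => absurd h' ha⟩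
      choose g hg1 hg2 using key
      refine ⟨readAll g (K x).toList a, ?_, ?_⟩
      · have h1 := readAll_depth g (m * c) hg1 (K x).toList a
        rw [Finset.length_toList] at h1
        have h2 := hK x
        calc _ ≤ (K x).card + m * c := h1
          _ ≤ c + m * c := by omega
          _ = (m + 1) * c := by ring
      · intro y b hy hyQ
        obtain ⟨a', h1, h2, h3⟩ := readAll_eval g y (K x).toList a
        rw [h3]
        have h4 : ∀ v ∈ Q, a' v = a v := by
          intro v hv
          by_cases hvL : v ∈ (K x).toList
          · rw [h1 v hvL, hyQ v hv]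
          · exact h2 v hvL
        apply hg2 a' h4 y b hy
        intro v hv
        by_cases hvL : v ∈ (K x).toList
        · exact (h1 v hvL).symm
        · rcases mem_union.1 hv with h5 | h5
          · rw [h4 v h5, hyQ v h5]
          · exact absurd (Finset.mem_toList.2 h5) hvL
    · refine ⟨.leaf false, by simp [DTree.depth], fun z b hz hzQ => ?_⟩
      cases b with
      | true => exact absurd ⟨z, hz, hzQ⟩ hx
      | false => rfl

/-- the tree which reads everything -/
theorem tree_full {V : Type} [Fintype V] [DecidableEq V] (f : (V → Bool) → Option Bool) :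
    ∃ t : DTree V, t.depth ≤ Fintype.card V ∧ ∀ x b, f x = some b → t.eval x = b := by
  classical
  refine ⟨readAll (fun a => .leaf ((f a).getD false)) (univ : Finset V).toList (fun _ => false),
    ?_, ?_⟩
  · have h1 := readAll_depth (fun a => DTree.leaf ((f a).getD false)) 0
      (fun a => by simp [DTree.depth]) (univ : Finset V).toList (fun _ => false)
    rw [Finset.length_toList, card_univ] at h1
    exact h1
  · intro x b hx
    obtain ⟨a', h1, _, h3⟩ := readAll_eval (fun a => DTree.leaf ((f a).getD false)) x
      (univ : Finset V).toList (fun _ => false)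
    have h4 : a' = x := by
      funext v
      exact h1 v (Finset.mem_toList.2 (mem_univ v))
    rw [h3, h4]
    simp [DTree.eval, hx]

end Pool.Agent.H529R2.PT
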