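import Pool.Agent.H529R2.PT.P2

/-! Partial Boolean functions with few undefined inputs: certificates. -/

set_option autoImplicit false

namespace Pool.Agent.H529R2.PT

open Finset

variable {V : Type} [Fintype V] [DecidableEq V]

/-- flip the values on `U` -/
def flip {V : Type} [DecidableEq V] (y : V → Bool) (U : Finset V) : V → Bool :=
  fun v => if v ∈ U then !(y v) else y v

omit [Fintype V] in
lemma flip_union (y : V → Bool) (U W : Finset V) (h : Disjoint U W) :
    flip (flip y U) W = flip y (U ∪ W) := by
  funext v
  unfold flip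
  by_cases h1 : v ∈ W
  · have h2 : v ∉ U := fun h' => (Finset.disjoint_left.1 h) h' h1
    simp [h1, h2]
  · by_cases h2 : v ∈ U <;> simp [h1, h2]

omit [Fintype V] in
lemma flip_sdiff (x : V → Bool) (S C : Finset V) (h : C ⊆ S) :
    flip (flip x S) C = flip x (S \ C) := by
  funext v
  unfold flip
  by_cases h1 : v ∈ C
  · have h2 : v ∈ S := h h1
    simp [h1, h2]
  · by_cases h2 : v ∈ S <;> simp [h1, h2]

omit [Fintype V] in
lemma flip_diff [Fintype V] (x y : V → Bool) :
    flip x (univ.filter fun v => x v ≠ y v) = y := by
  funext v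
  unfold flip
  by_cases h : x v = y v
  · simp [h]
  · simp only [mem_filter, mem_univ, true_and, ne_eq, h, not_false_eq_true, if_true]
    cases hx : x v <;> cases hy : y v <;> simp_all

/-- every subcube of dimension `k + 1` contains an input on which `f` is defined: whenever `W` is a
set of `k + 1` variables and `y` is an input, `f` is defined on some input which agrees with `y`
outside `W`. -/
def Meets {V : Type} (f : (V → Bool) → Option Bool) (k : ℕ) : Prop :=
  ∀ (W : Finset V) (y : V → Bool), W.card = k + 1 →
    ∃ x : V → Bool, (∀ v, v ∉ W → x v = y v) ∧ f x ≠ none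

lemma exists_defined (f : (V → Bool) → Option Bool) (k : ℕ)
    (hk : Meets f k) (W : Finset V) (hW : k + 1 ≤ W.card)
    (y : V → Bool) : ∃ C ⊆ W, f (flip y C) ≠ none := by
  obtain ⟨W', hW1, hW2⟩ := Finset.exists_subset_card_eq hW
  obtain ⟨x, hx1, hx2⟩ := hk W' y hW2
  refine ⟨univ.filter fun v => y v ≠ x v, ?_, ?_⟩
  · intro v hv
    rw [mem_filter] at hv
    by_contra h
    exact hv.2 (hx1 v (fun h' => h (hW1 h'))).symm
  · rw [flip_diff]
    exact hx2

/-- few undefined inputs: the domain meets every cube of dimension `k + 1` -/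
lemma meets_of_card (f : (V → Bool) → Option Bool) (k : ℕ)
    (hk : (univ.filter fun x => f x = none).card ≤ 2 ^ k) : Meets f k := by
  intro W y hW
  by_contra hcon
  push Not at hcon
  have h1 : W.powerset.card ≤ (univ.filter fun x => f x = none).card := by
    apply Finset.card_le_card_of_injOn (fun C => flip y C)
    · intro C hC
      rw [mem_coe, mem_powerset] at hC
      rw [mem_coe, mem_filter]
      refine ⟨mem_univ _, hcon _ ?_⟩
      intro v hv
      have : v ∉ C := fun h => hv (hC h)
      simp [flip, this]
    · intro C _ D _ h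
      ext v
      have h2 := congrFun h v
      simp only [flip] at h2
      by_cases h3 : v ∈ C <;> by_cases h4 : v ∈ D <;> simp_all
  rw [card_powerset, hW] at h1
  have h3 : 2 ^ k < 2 ^ (k + 1) := Nat.pow_lt_pow_right (by norm_num) (by omega)
  omega

omit [Fintype V] in
/-- a maximal family of disjoint small sets with the property `P` -/
lemma greedy (P : Finset V → Prop) (w : ℕ) : ∀ m : ℕ,
    (∃ U : Fin m → Finset V, (∀ i j, i ≠ j → Disjoint (U i) (U j)) ∧
      (∀ i, (U i).card ≤ w ∧ P (U i))) ∨
    ∃ K : Finset V, K.card + w ≤ m * w ∧ ¬ ∃ C, Disjoint C K ∧ C.card ≤ w ∧ P C := by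
  intro m
  induction m with
  | zero => exact Or.inl ⟨fun i => i.elim0, fun i => i.elim0, fun i => i.elim0⟩
  | succ m ih =>
    rcases ih with ⟨U, hU1, hU2⟩ | ⟨K, hK1, hK2⟩
    · by_cases h : ∃ C, Disjoint C (univ.biUnion U) ∧ C.card ≤ w ∧ P C
      · left
        obtain ⟨C, hC1, hC2, hC3⟩ := h
        rw [Finset.disjoint_biUnion_right] at hC1
        refine ⟨Fin.cons C U, ?_, ?_⟩
        · intro i j hij
          induction i using Fin.cases with
          | zero =>
            induction j using Fin.cases with
            | zero => exact absurd rfl hij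
            | succ j => simpa using hC1 j (mem_univ j)
          | succ i =>
            induction j using Fin.cases with
            | zero => simpa using (hC1 i (mem_univ i)).symm
            | succ j =>
              simp only [Fin.cons_succ]
              exact hU1 i j (fun h => hij (by rw [h]))
        · intro i
          induction i using Fin.cases with
          | zero => simpa using ⟨hC2, hC3⟩
          | succ i => simpa using hU2 i
      · right
        refine ⟨univ.biUnion U, ?_, h⟩
        have h1 : (univ.biUnion U).card ≤ m * w := by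
          calc (univ.biUnion U).card ≤ ∑ i : Fin m, (U i).card := card_biUnion_le
            _ ≤ ∑ _i : Fin m, w := Finset.sum_le_sum fun i _ => (hU2 i).1
            _ = m * w := by simp
        calc _ ≤ m * w + w := by omega
          _ = (m + 1) * w := by ring
    · right
      exact ⟨K, hK1.trans (Nat.mul_le_mul_right _ (by omega)), hK2⟩

/-- the bound for the number of disjoint sensitive blocks -/
def BS (f : (V → Bool) → Option Bool) (s : ℕ) : Prop :=
  ∀ (x : V → Bool) (b : Bool) (t : ℕ) (U : Fin t → Finset V),
    (∀ i j, i ≠ j → Disjoint (U i) (U j)) → f x = some b →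
    (∀ i, f (flip x (U i)) = some (!b)) → t ≤ s

/-- small sensitive blocks -/
lemma small_block (f : (V → Bool) → Option Bool) (k s : ℕ)
    (hk : Meets f k) (hs : BS f s)
    (x : V → Bool) (b : Bool) (S : Finset V)
    (hS : f (flip x S) = some (!b)) :
    ∃ S' ⊆ S, f (flip x S') = some (!b) ∧ S'.card ≤ (s + 1) * (k + 2) := by
  classical
  obtain ⟨S', hS', hmin⟩ := Finset.exists_min_image
    (S.powerset.filter fun S' => f (flip x S') = some (!b)) (fun S' => S'.card)
    ⟨S, by rw [mem_filter, mem_powerset]; exact ⟨Finset.Subset.refl _, hS⟩⟩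
  rw [mem_filter, mem_powerset] at hS'
  refine ⟨S', hS'.1, hS'.2, ?_⟩
  set y := flip x S' with hy
  have hdef : ∀ C ⊆ S', C.Nonempty → f (flip y C) ≠ none → f (flip y C) = some b := by
    intro C hC hne hn
    have h1 : f (flip y C) ≠ some (!b) := by
      intro h
      rw [hy, flip_sdiff x S' C hC] at h
      have h2 := hmin (S' \ C) (by
        rw [mem_filter, mem_powerset]
        exact ⟨sdiff_subset.trans hS'.1, h⟩)
      have h3 : (S' \ C).card < S'.card := by
        apply Finset.card_lt_card
        refine ⟨sdiff_subset, fun h' => ?_⟩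
        obtain ⟨v, hv⟩ := hne
        exact (mem_sdiff.1 (h' (hC hv))).2 hv
      omega
    cases h4 : f (flip y C) with
    | none => exact absurd h4 hn
    | some b' =>
      rw [h4] at h1
      cases b <;> cases b' <;> simp_all
  rcases greedy (fun C => C ⊆ S' ∧ f (flip y C) = some b) (k + 2) (s + 1) with
    ⟨U, hU1, hU2⟩ | ⟨K, hK1, hK2⟩
  · have h1 := hs y (!b) (s + 1) U hU1 hS'.2 (fun i => by
      rw [Bool.not_not]
      exact (hU2 i).2.2)
    omega
  · have h1 : (S' \ K).card < k + 2 := by
      by_contra hcon
      push Not at hcon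
      obtain ⟨R, hR1, hR2⟩ := Finset.exists_subset_card_eq hcon
      have hRne : R.Nonempty := by
        rw [← Finset.card_pos]
        omega
      obtain ⟨a, ha⟩ := hRne
      obtain ⟨C, hC1, hC2⟩ := exists_defined f k hk (R.erase a)
        (by rw [Finset.card_erase_of_mem ha]; omega) (flip y {a})
      have hdis : Disjoint ({a} : Finset V) C := by
        rw [Finset.disjoint_singleton_left]
        intro h
        exact (Finset.mem_erase.1 (hC1 h)).1 rfl
      rw [flip_union _ _ _ hdis] at hC2
      have hCR : {a} ∪ C ⊆ R := by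
        intro v hv
        rcases mem_union.1 hv with h | h
        · rw [mem_singleton] at h
          rw [h]
          exact ha
        · exact (Finset.mem_erase.1 (hC1 h)).2
      apply hK2
      refine ⟨{a} ∪ C, ?_, ?_, ?_, ?_⟩
      · rw [Finset.disjoint_left]
        intro v hv
        exact (mem_sdiff.1 (hR1 (hCR hv))).2
      · have := Finset.card_le_card hCR
        omega
      · intro v hv
        exact (mem_sdiff.1 (hR1 (hCR hv))).1
      · apply hdef _ (fun v hv => (mem_sdiff.1 (hR1 (hCR hv))).1)
          ⟨a, mem_union_left _ (mem_singleton_self a)⟩ hC2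
    have h2 : S'.card ≤ (S' \ K).card + K.card := by
      have := Finset.card_le_card_sdiff_add_card (s := S') (t := K)
      omega
    nlinarith

/-- small certificates -/
lemma small_cert (f : (V → Bool) → Option Bool) (k s : ℕ)
    (hk : Meets f k) (hs : BS f s)
    (x : V → Bool) (b : Bool) (hx : f x = some b) :
    ∃ K : Finset V, K.card ≤ (s + 1) ^ 2 * (k + 2) ∧
      ∀ y, (∀ v ∈ K, y v = x v) → f y ≠ some (!b) := by
  classical
  rcases greedy (fun C => f (flip x C) = some (!b)) ((s + 1) * (k + 2)) (s + 1) with
    ⟨U, hU1, hU2⟩ | ⟨K, hK1, hK2⟩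
  · have h1 := hs x b (s + 1) U hU1 hx (fun i => (hU2 i).2)
    omega
  · refine ⟨K, ?_, ?_⟩
    · calc K.card ≤ (s + 1) * ((s + 1) * (k + 2)) := by omega
        _ = (s + 1) ^ 2 * (k + 2) := by ring
    · intro y hyK hy
      have h1 := flip_diff x y
      rw [← h1] at hy
      obtain ⟨S', hS'1, hS'2, hS'3⟩ := small_block f k s hk hs x b _ hy
      apply hK2
      refine ⟨S', ?_, hS'3, hS'2⟩
      rw [Finset.disjoint_left]
      intro v hv hvK
      have h2 := hS'1 hv
      rw [mem_filter] at h2
      exact h2.2 (hyK v hvK).symm

/-- the theorem for partial functions with a bound for the number of sensitive blocks -/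
theorem tree_of_BS (f : (V → Bool) → Option Bool) (k s : ℕ)
    (hk : Meets f k) (hs : BS f s) :
    ∃ t : DTree V, t.depth ≤ (s + 1) ^ 4 * (k + 2) ^ 2 ∧ ∀ x b, f x = some b → t.eval x = b := by
  classical
  set c := (s + 1) ^ 2 * (k + 2) with hc
  have hcc : (s + 1) ^ 4 * (k + 2) ^ 2 = c * c := by rw [hc]; ring
  have hc2 : k + 2 ≤ c := by
    rw [hc]
    exact Nat.le_mul_of_pos_left _ (by positivity)
  rw [hcc]
  by_cases hV : Fintype.card V ≤ 2 * c + k
  · obtain ⟨t, ht1, ht2⟩ := tree_full f
    refine ⟨t, ?_, ht2⟩
    have h1 : 2 * c + k ≤ c * c := by nlinarith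
    omega
  · push Not at hV
    have hcert : ∀ x : V → Bool, ∃ K : Finset V, K.card ≤ c ∧
        ∀ b, f x = some b → ∀ y, (∀ v ∈ K, y v = x v) → f y ≠ some (!b) := by
      intro x
      cases hx : f x with
      | none => exact ⟨∅, by simp, by simp⟩
      | some b =>
        obtain ⟨K, hK1, hK2⟩ := small_cert f k s hk hs x b hx
        refine ⟨K, hK1, ?_⟩
        intro b' hb' y hy
        rw [← Option.some.inj hb']
        exact hK2 y hy
    choose K hK1 hK2 using hcert
    obtain ⟨t, ht1, ht2⟩ := tree_of_cert f c K hK1 (by
      intro x z hx hz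
      by_contra hcon
      push Not at hcon
      have h1 : k + 1 ≤ ((univ : Finset V) \ (K x ∪ K z)).card := by
        rw [card_sdiff_of_subset (subset_univ _), card_univ]
        have := (card_union_le (K x) (K z)).trans (add_le_add (hK1 x) (hK1 z))
        omega
      obtain ⟨C, hC1, hC2⟩ := exists_defined f k hk _ h1
        (fun v => if v ∈ K x then x v else z v)
      have hCx : ∀ v ∈ K x, flip (fun v => if v ∈ K x then x v else z v) C v = x v := by
        intro v hv
        have h2 : v ∉ C := fun h => (mem_sdiff.1 (hC1 h)).2 (mem_union_left _ hv)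
        simp [flip, h2, hv]
      have hCz : ∀ v ∈ K z, flip (fun v => if v ∈ K x then x v else z v) C v = z v := by
        intro v hv
        have h2 : v ∉ C := fun h => (mem_sdiff.1 (hC1 h)).2 (mem_union_right _ hv)
        by_cases h3 : v ∈ K x
        · simp only [flip, h2, h3, if_true, if_false]
          exact hcon v h3 hv
        · simp [flip, h2, h3]
      have h3 := hK2 x true hx _ hCx
      have h4 := hK2 z false hz _ hCz
      cases h5 : f (flip (fun v => if v ∈ K x then x v else z v) C) with
      | none => exact hC2 h5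
      | some b =>
        rw [h5] at h3 h4
        cases b <;> simp_all) c ∅ (fun _ => false) (by
      intro z _ _
      rw [sdiff_empty]
      exact hK1 z)
    exact ⟨t, ht1, fun x b hx => ht2 x b hx (by simp)⟩

end Pool.Agent.H529R2.PT
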