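import Pool.Agent.H529R2.PT.P1
import Pool.Agent.H529R2.PT.P3

/-! Quantum query algorithms: the acceptance probability has degree at most `2 T`. -/

set_option autoImplicit false

namespace Pool.Agent.H529R2.PT

open Finset Pool.Agent.H564R2.QF

/-- flips of blocks -/
noncomputable def Wm {V : Type} [DecidableEq V] {t : ℕ} (y : V → Bool) (U : Fin t → Finset V)
    (u : Fin t → Bool) : V → Bool :=
  flip y ((univ.filter (fun i => u i = true)).biUnion U)

lemma factor {V : Type} [DecidableEq V] {t : ℕ} (y : V → Bool) (U : Fin t → Finset V)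
    (hU : ∀ i j, i ≠ j → Disjoint (U i) (U j)) (v : V) :
    (fun u : Fin t → Bool => if Wm y U u v = true then (-1 : ℝ) else 1) ∈ LowDeg (Fin t) 1 := by
  by_cases hv : ∃ i, v ∈ U i
  · obtain ⟨i, hi⟩ := hv
    have h1 : ∀ u : Fin t → Bool, Wm y U u v = if u i = true then !(y v) else y v := by
      intro u
      unfold Wm flip
      have h3 : v ∈ (univ.filter (fun i => u i = true)).biUnion U ↔ u i = true := by
        rw [mem_biUnion]
        constructor
        · rintro ⟨j, hj, hvj⟩
          rw [mem_filter] at hj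
          by_cases hij : j = i
          · rw [← hij]; exact hj.2
          · exact absurd hi (Finset.disjoint_left.1 (hU j i hij) hvj)
        · intro h
          exact ⟨i, mem_filter.2 ⟨mem_univ _, h⟩, hi⟩
      by_cases h : u i = true
      · rw [if_pos (h3.2 h), if_pos h]
      · rw [if_neg (fun h' => h (h3.1 h')), if_neg h]
    have h2 : (fun u : Fin t → Bool => if Wm y U u v = true then (-1 : ℝ) else 1) =
        (if y v = true then (-1 : ℝ) else 1) • chi {i} := by
      funext u
      rw [h1, Pi.smul_apply, smul_eq_mul]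
      unfold chi
      rw [prod_singleton]
      cases y v <;> cases u i <;> simp
    rw [h2]
    exact Submodule.smul_mem _ _ (chi_mem _ (by simp))
  · have h1 : ∀ u : Fin t → Bool, Wm y U u v = y v := by
      intro u
      unfold Wm flip
      rw [if_neg]
      intro h
      rw [mem_biUnion] at h
      obtain ⟨j, _, hj⟩ := h
      exact hv ⟨j, hj⟩
    simp only [h1]
    exact LowDeg.const 1 _

lemma comp_mem {V : Type} [DecidableEq V] {t d : ℕ} (y : V → Bool) (U : Fin t → Finset V)
    (hU : ∀ i j, i ≠ j → Disjoint (U i) (U j)) (g : (V → Bool) → ℝ) (hg : g ∈ LowDeg V d) :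
    (fun u => g (Wm y U u)) ∈ LowDeg (Fin t) d := by
  induction hg using Submodule.span_induction with
  | mem g hg =>
    obtain ⟨S, hS, rfl⟩ := hg
    have h1 := LowDeg.prod S (fun _ => 1)
      (fun v => fun u : Fin t → Bool => if Wm y U u v = true then (-1 : ℝ) else 1)
      (fun v _ => factor y U hU v)
    have h2 : (fun u : Fin t → Bool => chi S (Wm y U u)) =
        ∏ v ∈ S, fun u : Fin t → Bool => if Wm y U u v = true then (-1 : ℝ) else 1 := by
      funext u
      rw [Finset.prod_apply]
      rfl
    rw [h2]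
    exact LowDeg.of_le h1 (by simpa using hS)
  | zero => exact Submodule.zero_mem _
  | add a b _ _ ha hb => exact Submodule.add_mem _ ha hb
  | smul c a _ ha => exact Submodule.smul_mem _ c ha

/-- bounded polynomials bound the number of sensitive blocks -/
theorem BS_of_poly {V : Type} [Fintype V] [DecidableEq V] (f : (V → Bool) → Option Bool) (d : ℕ)
    (p : (V → Bool) → ℝ) (hp : p ∈ LowDeg V d) (h01 : ∀ x, 0 ≤ p x ∧ p x ≤ 1)
    (h1 : ∀ x, f x = some true → 2 / 3 ≤ p x) (h0 : ∀ x, f x = some false → p x ≤ 1 / 3) :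
    BS f (3 * d ^ 2) := by
  intro x b t U hU hx hflip
  have hc := comp_mem x U hU p hp
  have e0 : Wm x U (ind ∅) = x := by
    unfold Wm flip ind
    funext v
    simp
  have e1 : ∀ j, Wm x U (ind {j}) = flip x (U j) := by
    intro j
    unfold Wm
    congr 1
    ext v
    simp [ind]
  cases b with
  | false =>
    refine block_bound (fun u => p (Wm x U u)) hc (fun u => h01 _) ?_ ?_
    · simp only [e0]
      exact h0 x hx
    · intro j
      simp only [e1]
      exact h1 _ (hflip j)
  | true =>
    refine block_bound (fun u => 1 - p (Wm x U u))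
      (Submodule.sub_mem _ (LowDeg.const d 1) hc) (fun u => ?_) ?_ ?_
    · have := h01 (Wm x U u)
      constructor <;> linarith
    · simp only [e0]
      have := h1 x hx
      linarith
    · intro j
      simp only [e1]
      have := h0 _ (hflip j)
      linarith

/-- the sign of the answer -/
noncomputable def phase {V : Type} (q : Option V) (x : V → Bool) : ℝ :=
  Option.elim q 1 (fun i => if x i = true then -1 else 1)

lemma phase_mem {V : Type} (q : Option V) : phase q ∈ LowDeg V 1 := by
  cases q with
  | none => exact LowDeg.const 1 1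
  | some i =>
    have : phase (some i) = chi {i} := by
      funext x
      simp [phase, chi]
    rw [this]
    exact chi_mem _ (by simp)

theorem amp_mem {V B : Type} [Fintype B] (pos : B → Option V)
    (U : ℕ → Matrix B B ℂ) (v : B → ℂ) (A : ℕ → (V → Bool) → B → ℂ)
    (hA0 : ∀ x, A 0 x = v)
    (hA : ∀ t x, A (t + 1) x = (U t).mulVec (fun b => ((phase (pos b) x : ℝ) : ℂ) * A t x b)) :
    ∀ t b, (fun x => (A t x b).re) ∈ LowDeg V t ∧ (fun x => (A t x b).im) ∈ LowDeg V t := by
  intro t
  induction t with
  | zero =>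
    intro b
    simp only [hA0]
    exact ⟨LowDeg.const 0 _, LowDeg.const 0 _⟩
  | succ t ih =>
    intro b
    have hre : ∀ c, (fun x => phase (pos c) x * (A t x c).re) ∈ LowDeg V (t + 1) := by
      intro c
      have := LowDeg.mul (phase_mem (pos c)) (ih c).1
      rw [add_comm] at this
      exact this
    have him : ∀ c, (fun x => phase (pos c) x * (A t x c).im) ∈ LowDeg V (t + 1) := by
      intro c
      have := LowDeg.mul (phase_mem (pos c)) (ih c).2
      rw [add_comm] at this
      exact this
    constructor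
    · have e : (fun x => (A (t + 1) x b).re) = ∑ c, ((U t b c).re •
          (fun x => phase (pos c) x * (A t x c).re) -
          (U t b c).im • (fun x => phase (pos c) x * (A t x c).im)) := by
        funext x
        rw [hA, Finset.sum_apply]
        simp only [Matrix.mulVec, dotProduct, Complex.re_sum]
        refine Finset.sum_congr rfl fun c _ => ?_
        simp only [Complex.mul_re, Complex.mul_im, Complex.ofReal_re, Complex.ofReal_im,
          Pi.sub_apply, Pi.smul_apply, smul_eq_mul]
        ring
      rw [e]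
      exact Submodule.sum_mem _ fun c _ => Submodule.sub_mem _ (Submodule.smul_mem _ _ (hre c))
        (Submodule.smul_mem _ _ (him c))
    · have e : (fun x => (A (t + 1) x b).im) = ∑ c, ((U t b c).re •
          (fun x => phase (pos c) x * (A t x c).im) +
          (U t b c).im • (fun x => phase (pos c) x * (A t x c).re)) := by
        funext x
        rw [hA, Finset.sum_apply]
        simp only [Matrix.mulVec, dotProduct, Complex.im_sum]
        refine Finset.sum_congr rfl fun c _ => ?_
        simp only [Complex.mul_re, Complex.mul_im, Complex.ofReal_re, Complex.ofReal_im,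
          Pi.add_apply, Pi.smul_apply, smul_eq_mul]
        ring
      rw [e]
      exact Submodule.sum_mem _ fun c _ => Submodule.add_mem _ (Submodule.smul_mem _ _ (him c))
        (Submodule.smul_mem _ _ (hre c))

theorem prob_mem {V B : Type} [Fintype B] (pos : B → Option V)
    (U : ℕ → Matrix B B ℂ) (v : B → ℂ) (A : ℕ → (V → Bool) → B → ℂ)
    (hA0 : ∀ x, A 0 x = v)
    (hA : ∀ t x, A (t + 1) x = (U t).mulVec (fun b => ((phase (pos b) x : ℝ) : ℂ) * A t x b))
    (T : ℕ) (acc : Finset B) :
    (fun x => ∑ b ∈ acc, ‖A T x b‖ ^ 2) ∈ LowDeg V (2 * T) := by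
  have e : (fun x => ∑ b ∈ acc, ‖A T x b‖ ^ 2) =
      ∑ b ∈ acc, ((fun x => (A T x b).re) * (fun x => (A T x b).re) +
        (fun x => (A T x b).im) * (fun x => (A T x b).im)) := by
    funext x
    rw [Finset.sum_apply]
    refine Finset.sum_congr rfl fun b _ => ?_
    rw [← Complex.normSq_eq_norm_sq, Complex.normSq_apply]
    rfl
  rw [e]
  refine Submodule.sum_mem _ fun b _ => ?_
  have h := amp_mem pos U v A hA0 hA T b
  rw [two_mul]
  exact Submodule.add_mem _ (LowDeg.mul h.1 h.1) (LowDeg.mul h.2 h.2)

theorem norm_step {B : Type} [Fintype B] [DecidableEq B] (U : Matrix B B ℂ)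
    (hU : U ∈ Matrix.unitaryGroup B ℂ) (w : B → ℂ) :
    ∑ b, ‖(U.mulVec w) b‖ ^ 2 = ∑ b, ‖w b‖ ^ 2 := by
  have key : ∀ u : B → ℂ, ((∑ b, ‖u b‖ ^ 2 : ℝ) : ℂ) = star u ⬝ᵥ u := by
    intro u
    rw [Complex.ofReal_sum, dotProduct]
    refine Finset.sum_congr rfl fun b _ => ?_
    rw [Pi.star_apply, Complex.star_def, ← Complex.normSq_eq_conj_mul_self,
      Complex.normSq_eq_norm_sq]
  have h : ((∑ b, ‖(U.mulVec w) b‖ ^ 2 : ℝ) : ℂ) = ((∑ b, ‖w b‖ ^ 2 : ℝ) : ℂ) := by
    rw [key, key, Matrix.star_mulVec, Matrix.dotProduct_mulVec, Matrix.vecMul_vecMul]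
    rw [Matrix.mem_unitaryGroup_iff', Matrix.star_eq_conjTranspose] at hU
    rw [hU, Matrix.vecMul_one]
  exact_mod_cast h

theorem norm_amp {V B : Type} [Fintype B] [DecidableEq B] (pos : B → Option V)
    (U : ℕ → Matrix B B ℂ) (hU : ∀ t, U t ∈ Matrix.unitaryGroup B ℂ) (v : B → ℂ)
    (hv : ∑ b, ‖v b‖ ^ 2 = 1) (A : ℕ → (V → Bool) → B → ℂ)
    (hA0 : ∀ x, A 0 x = v)
    (hA : ∀ t x, A (t + 1) x = (U t).mulVec (fun b => ((phase (pos b) x : ℝ) : ℂ) * A t x b)) :
    ∀ t x, ∑ b, ‖A t x b‖ ^ 2 = 1 := by
  intro t x
  induction t with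
  | zero => rw [hA0]; exact hv
  | succ t ih =>
    rw [hA, norm_step _ (hU t), ← ih]
    refine Finset.sum_congr rfl fun b _ => ?_
    rw [norm_mul]
    have : ‖((phase (pos b) x : ℝ) : ℂ)‖ = 1 := by
      rw [Complex.norm_real]
      unfold phase
      cases pos b with
      | none => simp
      | some i =>
        simp only [Option.elim_some]
        split_ifs <;> simp
    rw [this, one_mul]

end Pool.Agent.H529R2.PT
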