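import Pool.Agent.H529R2.PT.P4

/-! Proof systems: the polynomial may depend on the input which is verified. -/

set_option autoImplicit false

namespace Pool.Agent.H529R2.PT

open Finset Pool.Agent.H564R2.QF

/-- bounded polynomials, one for every input, bound the number of sensitive blocks -/
theorem BS_of_polys {V : Type} [Fintype V] [DecidableEq V] (f : (V → Bool) → Option Bool) (d : ℕ)
    (h : ∀ x b, f x = some b → ∃ p : (V → Bool) → ℝ, p ∈ LowDeg V d ∧
      (∀ y, 0 ≤ p y ∧ p y ≤ 1) ∧ 2 / 3 ≤ p x ∧ ∀ y, f y = some (!b) → p y ≤ 1 / 3) :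
    BS f (3 * d ^ 2) := by
  intro x b t U hU hx hflip
  obtain ⟨p, hp, h01, h1, h0⟩ := h x b hx
  have hc := comp_mem x U hU p hp
  have e0 : Wm x U (ind ∅) = x := by
    unfold Wm flip ind
    funext v
    simp
  have e1 : ∀ j, Wm x U (ind {j}) = flip x (U j) := by
    intro j
    unfold Wm
    congr 1
    ext v
    simp [ind]
  refine block_bound (fun u => 1 - p (Wm x U u))
    (Submodule.sub_mem _ (LowDeg.const d 1) hc) (fun u => ?_) ?_ ?_
  · have := h01 (Wm x U u)
    constructor <;> linarith
  · simp only [e0]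
    linarith
  · intro j
    simp only [e1]
    have := h0 _ (hflip j)
    linarith

end Pool.Agent.H529R2.PT
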