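import Pool.Agent.H529R2.PT.P5

/-! Almost all promises meet all subcubes of logarithmic dimension. -/

set_option autoImplicit false

namespace Pool.Agent.H529R2.PT

open Finset

/-- the subcube of all inputs which agree with `y` outside `W` -/
def cube {n : ℕ} (W : Finset (Fin n)) (y : Fin n → Bool) : Finset (Fin n → Bool) :=
  univ.filter fun x => ∀ i, i ∉ W → x i = y i

lemma card_cube {n : ℕ} (W : Finset (Fin n)) (y : Fin n → Bool) :
    2 ^ W.card ≤ (cube W y).card := by
  rw [← card_powerset]
  apply Finset.card_le_card_of_injOn (fun C => flip y C)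
  · intro C hC
    rw [mem_coe, mem_powerset] at hC
    rw [mem_coe, cube, mem_filter]
    refine ⟨mem_univ _, ?_⟩
    intro v hv
    have : v ∉ C := fun h => hv (hC h)
    simp [flip, this]
  · intro C _ D _ h
    ext v
    have h2 := congrFun h v
    simp only [flip] at h2
    by_cases h3 : v ∈ C <;> by_cases h4 : v ∈ D <;> simp_all

/-- the sets of inputs which are disjoint from a subcube of dimension `m` -/
def bad (n m : ℕ) : Finset (Finset (Fin n → Bool)) :=
  univ.filter fun P => ∃ (W : Finset (Fin n)) (y : Fin n → Bool), W.card = m ∧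
    Disjoint P (cube W y)

lemma card_bad (n m : ℕ) (hm : 3 * n ≤ 2 ^ m) : (bad n m).card * 2 ^ n ≤ 2 ^ (2 ^ n) := by
  classical
  by_cases hnm : m ≤ n
  · have h1 : bad n m ⊆ (univ : Finset (Finset (Fin n) × (Fin n → Bool))).biUnion
        fun q => if q.1.card = m then ((cube q.1 q.2)ᶜ).powerset else ∅ := by
      intro P hP
      rw [bad, mem_filter] at hP
      obtain ⟨_, W, y, hW, hd⟩ := hP
      rw [mem_biUnion]
      refine ⟨(W, y), mem_univ _, ?_⟩
      rw [if_pos hW, mem_powerset]
      intro x hx
      rw [mem_compl]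
      exact Finset.disjoint_left.1 hd hx
    have h2 : ∀ q : Finset (Fin n) × (Fin n → Bool),
        (if q.1.card = m then ((cube q.1 q.2)ᶜ).powerset else ∅).card ≤
          2 ^ (2 ^ n - 2 ^ m) := by
      intro q
      split_ifs with h
      · rw [card_powerset]
        apply Nat.pow_le_pow_right (by norm_num)
        rw [card_compl, Fintype.card_fun, Fintype.card_bool, Fintype.card_fin]
        have := card_cube q.1 q.2
        rw [h] at this
        omega
      · simp
    have h3 : (bad n m).card ≤ (2 ^ n * 2 ^ n) * 2 ^ (2 ^ n - 2 ^ m) := by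
      refine (card_le_card h1).trans (card_biUnion_le.trans ?_)
      refine (Finset.sum_le_sum fun q _ => h2 q).trans ?_
      rw [Finset.sum_const, card_univ, Fintype.card_prod, Fintype.card_finset, Fintype.card_fun,
        Fintype.card_bool, Fintype.card_fin, smul_eq_mul]
    have h4 : 2 ^ m ≤ 2 ^ n := Nat.pow_le_pow_right (by norm_num) hnm
    calc (bad n m).card * 2 ^ n ≤ ((2 ^ n * 2 ^ n) * 2 ^ (2 ^ n - 2 ^ m)) * 2 ^ n :=
          Nat.mul_le_mul_right _ h3
      _ = 2 ^ (n + n + (2 ^ n - 2 ^ m) + n) := by rw [pow_add, pow_add, pow_add]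
      _ ≤ 2 ^ (2 ^ n) := Nat.pow_le_pow_right (by norm_num) (by omega)
  · have h1 : bad n m = ∅ := by
      rw [Finset.eq_empty_iff_forall_notMem]
      intro P hP
      rw [bad, mem_filter] at hP
      obtain ⟨_, W, y, hW, _⟩ := hP
      have := card_le_univ W
      rw [Fintype.card_fin] at this
      omega
    rw [h1]
    simp

lemma meets_of_not_bad {n k : ℕ} {P : Finset (Fin n → Bool)} (hP : P ∉ bad n (k + 1))
    (f : (Fin n → Bool) → Option Bool) (hf : ∀ x ∈ P, f x ≠ none) : Meets f k := by
  intro W y hW
  by_contra hcon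
  push Not at hcon
  apply hP
  rw [bad, mem_filter]
  refine ⟨mem_univ _, W, y, hW, ?_⟩
  rw [Finset.disjoint_left]
  intro x hx hxc
  rw [cube, mem_filter] at hxc
  exact hf x hx (hcon x hxc.2)

end Pool.Agent.H529R2.PT
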